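import Pool.Agent.Run7.h523.KF.Iface

/-!
# KLS for `± x_i ± x_j ≤ 0` (helper523): piece PAT8 (helper915)
-/

set_option autoImplicit false

namespace Run7.h915.KF

open Run7.h523.KF

theorem val8 (p : ℤ) (hp : Odd p) :
    ∃ u1 u2 u3 u4 u5 u6 u7 : ℤ, sb 0 p = u1 ∧ sb 1 u1 = u2 ∧ sb 0 u2 = u3 ∧ sb 1 u3 = u4 ∧
      sb 0 u4 = u5 ∧ sb 1 u5 = u6 ∧ sb 0 u6 = u7 ∧
      ((p = 1 ∧ u1 = -1 ∧ u2 = -3 ∧ u3 = -3 ∧ u4 = -1 ∧ u5 = 1 ∧ u6 = 3 ∧ u7 = 3) ∨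
       (p = -1 ∧ u1 = 1 ∧ u2 = 3 ∧ u3 = 3 ∧ u4 = 1 ∧ u5 = -1 ∧ u6 = -3 ∧ u7 = -3) ∨
       (p = 3 ∧ u1 = 3 ∧ u2 = 1 ∧ u3 = -1 ∧ u4 = -3 ∧ u5 = -3 ∧ u6 = -1 ∧ u7 = 1) ∨
       (p = -3 ∧ u1 = -3 ∧ u2 = -1 ∧ u3 = 1 ∧ u4 = 3 ∧ u5 = 3 ∧ u6 = 1 ∧ u7 = -1) ∨
       ((p < -3 ∨ 3 < p) ∧ u1 = p ∧ u2 = p ∧ u3 = p ∧ u4 = p ∧ u5 = p ∧ u6 = p ∧ u7 = p)) := by
  by_cases h1 : p = 1
  · subst h1
    exact ⟨-1, -3, -3, -1, 1, 3, 3, by decide, by decide, by decide, by decide, by decide, by decide,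
      by decide, Or.inl ⟨rfl, rfl, rfl, rfl, rfl, rfl, rfl, rfl⟩⟩
  by_cases h2 : p = -1
  · subst h2
    exact ⟨1, 3, 3, 1, -1, -3, -3, by decide, by decide, by decide, by decide, by decide, by decide,
      by decide, Or.inr (Or.inl ⟨rfl, rfl, rfl, rfl, rfl, rfl, rfl, rfl⟩)⟩
  by_cases h3 : p = 3
  · subst h3
    exact ⟨3, 1, -1, -3, -3, -1, 1, by decide, by decide, by decide, by decide, by decide, by decide,
      by decide, Or.inr (Or.inr (Or.inl ⟨rfl, rfl, rfl, rfl, rfl, rfl, rfl, rfl⟩))⟩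
  by_cases h4 : p = -3
  · subst h4
    exact ⟨-3, -1, 1, 3, 3, 1, -1, by decide, by decide, by decide, by decide, by decide, by decide,
      by decide, Or.inr (Or.inr (Or.inr (Or.inl ⟨rfl, rfl, rfl, rfl, rfl, rfl, rfl, rfl⟩)))⟩
  have h5 : p < -3 ∨ 3 < p := by
    obtain ⟨k, hk⟩ := hp
    rcases lt_trichotomy p 0 with h | h | h
    · left; omega
    · omega
    · right; omega
  have e0 : sb 0 p = p := by
    unfold sb
    rw [if_neg (by push_cast; omega), if_neg (by push_cast; omega), if_neg (by push_cast; omega),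
      if_neg (by push_cast; omega)]
  have e1 : sb 1 p = p := by
    unfold sb
    rw [if_neg (by push_cast; omega), if_neg (by push_cast; omega), if_neg (by push_cast; omega),
      if_neg (by push_cast; omega)]
  exact ⟨p, p, p, p, p, p, p, e0, e1, e0, e1, e0, e1, e0,
    Or.inr (Or.inr (Or.inr (Or.inr ⟨h5, rfl, rfl, rfl, rfl, rfl, rfl, rfl⟩)))⟩

theorem conv8 (u v : ℕ → ℤ)
    (h : (u 0 ≤ v 0 ∧ u 1 ≤ v 1 ∧ u 2 ≤ v 2 ∧ u 3 ≤ v 3 ∧ u 4 ≤ v 4 ∧ u 5 ≤ v 5 ∧ u 6 ≤ v 6 ∧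
        u 7 ≤ v 7) ∨
      (v 4 < u 4 ∧ v 5 < u 5 ∧ v 6 < u 6 ∧ v 7 < u 7) ∨
      (v 5 < u 5 ∧ v 6 < u 6 ∧ v 7 < u 7 ∧ v 0 < u 0) ∨
      (v 6 < u 6 ∧ v 7 < u 7 ∧ v 0 < u 0 ∧ v 1 < u 1) ∨
      (v 7 < u 7 ∧ v 0 < u 0 ∧ v 1 < u 1 ∧ v 2 < u 2) ∨
      (v 0 < u 0 ∧ v 1 < u 1 ∧ v 2 < u 2 ∧ v 3 < u 3) ∨
      (v 1 < u 1 ∧ v 2 < u 2 ∧ v 3 < u 3 ∧ v 4 < u 4) ∨
      (v 2 < u 2 ∧ v 3 < u 3 ∧ v 4 < u 4 ∧ v 5 < u 5) ∨
      (v 3 < u 3 ∧ v 4 < u 4 ∧ v 5 < u 5 ∧ v 6 < u 6)) :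
    (∀ i < 8, u i ≤ v i) ∨ ∃ i₀ < 8, ∀ i < 8, u i ≤ v i →
      i = i₀ ∨ i = (i₀ + 1) % 8 ∨ i = (i₀ + 2) % 8 ∨ i = (i₀ + 3) % 8 := by
  rcases h with h | h | h | h | h | h | h | h | h
  · left
    intro i hi
    interval_cases i <;> omega
  · right
    refine ⟨0, by norm_num, fun i hi h1 => ?_⟩
    interval_cases i <;> omega
  · right
    refine ⟨1, by norm_num, fun i hi h1 => ?_⟩
    interval_cases i <;> omega
  · right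
    refine ⟨2, by norm_num, fun i hi h1 => ?_⟩
    interval_cases i <;> omega
  · right
    refine ⟨3, by norm_num, fun i hi h1 => ?_⟩
    interval_cases i <;> omega
  · right
    refine ⟨4, by norm_num, fun i hi h1 => ?_⟩
    interval_cases i <;> omega
  · right
    refine ⟨5, by norm_num, fun i hi h1 => ?_⟩
    interval_cases i <;> omega
  · right
    refine ⟨6, by norm_num, fun i hi h1 => ?_⟩
    interval_cases i <;> omega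
  · right
    refine ⟨7, by norm_num, fun i hi h1 => ?_⟩
    interval_cases i <;> omega

theorem t_PAT8 : S_PAT8 := by
  intro p q hp hq
  obtain ⟨u1, u2, u3, u4, u5, u6, u7, a1, a2, a3, a4, a5, a6, a7, ha⟩ := val8 p hp
  obtain ⟨v1, v2, v3, v4, v5, v6, v7, b1, b2, b3, b4, b5, b6, b7, hb⟩ := val8 q hq
  apply conv8 (fun i => alt (sb 0) (sb 1) i p) (fun i => alt (sb 0) (sb 1) i q)
  have e0 : alt (sb 0) (sb 1) 0 p = p := rfl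
  have e1 : alt (sb 0) (sb 1) 1 p = u1 := a1
  have e2 : alt (sb 0) (sb 1) 2 p = u2 := by rw [← a2, ← e1]; rfl
  have e3 : alt (sb 0) (sb 1) 3 p = u3 := by rw [← a3, ← e2]; rfl
  have e4 : alt (sb 0) (sb 1) 4 p = u4 := by rw [← a4, ← e3]; rfl
  have e5 : alt (sb 0) (sb 1) 5 p = u5 := by rw [← a5, ← e4]; rfl
  have e6 : alt (sb 0) (sb 1) 6 p = u6 := by rw [← a6, ← e5]; rfl
  have e7 : alt (sb 0) (sb 1) 7 p = u7 := by rw [← a7, ← e6]; rfl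
  have f0 : alt (sb 0) (sb 1) 0 q = q := rfl
  have f1 : alt (sb 0) (sb 1) 1 q = v1 := b1
  have f2 : alt (sb 0) (sb 1) 2 q = v2 := by rw [← b2, ← f1]; rfl
  have f3 : alt (sb 0) (sb 1) 3 q = v3 := by rw [← b3, ← f2]; rfl
  have f4 : alt (sb 0) (sb 1) 4 q = v4 := by rw [← b4, ← f3]; rfl
  have f5 : alt (sb 0) (sb 1) 5 q = v5 := by rw [← b5, ← f4]; rfl
  have f6 : alt (sb 0) (sb 1) 6 q = v6 := by rw [← b6, ← f5]; rfl
  have f7 : alt (sb 0) (sb 1) 7 q = v7 := by rw [← b7, ← f6]; rfl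
  simp only [e0, e1, e2, e3, e4, e5, e6, e7, f0, f1, f2, f3, f4, f5, f6, f7]
  clear e0 e1 e2 e3 e4 e5 e6 e7 f0 f1 f2 f3 f4 f5 f6 f7 a1 a2 a3 a4 a5 a6 a7 b1 b2 b3 b4 b5 b6 b7 hp hq
  rcases ha with ⟨h0, h1, h2, h3, h4, h5, h6, h7⟩ | ⟨h0, h1, h2, h3, h4, h5, h6, h7⟩ |
    ⟨h0, h1, h2, h3, h4, h5, h6, h7⟩ | ⟨h0, h1, h2, h3, h4, h5, h6, h7⟩ |
    ⟨h0, h1, h2, h3, h4, h5, h6, h7⟩ <;>
  rcases hb with ⟨k0, k1, k2, k3, k4, k5, k6, k7⟩ | ⟨k0, k1, k2, k3, k4, k5, k6, k7⟩ |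
    ⟨k0, k1, k2, k3, k4, k5, k6, k7⟩ | ⟨k0, k1, k2, k3, k4, k5, k6, k7⟩ |
    ⟨k0, k1, k2, k3, k4, k5, k6, k7⟩
  · left
    refine ⟨?_, ?_, ?_, ?_, ?_, ?_, ?_, ?_⟩ <;> omega
  · right; right; left
    refine ⟨?_, ?_, ?_, ?_⟩ <;> omega
  · right; left
    refine ⟨?_, ?_, ?_, ?_⟩ <;> omega
  · right; right; right; left
    refine ⟨?_, ?_, ?_, ?_⟩ <;> omega
  · rcases k0 with k0 | k0
    · right; left
      refine ⟨?_, ?_, ?_, ?_⟩ <;> omega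
    · left
      refine ⟨?_, ?_, ?_, ?_, ?_, ?_, ?_, ?_⟩ <;> omega
  · right; right; right; right; right; right; left
    refine ⟨?_, ?_, ?_, ?_⟩ <;> omega
  · left
    refine ⟨?_, ?_, ?_, ?_, ?_, ?_, ?_, ?_⟩ <;> omega
  · right; right; right; right; right; right; right; left
    refine ⟨?_, ?_, ?_, ?_⟩ <;> omega
  · right; right; right; right; right; left
    refine ⟨?_, ?_, ?_, ?_⟩ <;> omega
  · rcases k0 with k0 | k0
    · right; left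
      refine ⟨?_, ?_, ?_, ?_⟩ <;> omega
    · left
      refine ⟨?_, ?_, ?_, ?_, ?_, ?_, ?_, ?_⟩ <;> omega
  · right; right; right; right; right; left
    refine ⟨?_, ?_, ?_, ?_⟩ <;> omega
  · right; right; right; left
    refine ⟨?_, ?_, ?_, ?_⟩ <;> omega
  · left
    refine ⟨?_, ?_, ?_, ?_, ?_, ?_, ?_, ?_⟩ <;> omega
  · right; right; right; right; left
    refine ⟨?_, ?_, ?_, ?_⟩ <;> omega
  · rcases k0 with k0 | k0
    · right; left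
      refine ⟨?_, ?_, ?_, ?_⟩ <;> omega
    · left
      refine ⟨?_, ?_, ?_, ?_, ?_, ?_, ?_, ?_⟩ <;> omega
  · right; right; right; right; right; right; right; left
    refine ⟨?_, ?_, ?_, ?_⟩ <;> omega
  · right; left
    refine ⟨?_, ?_, ?_, ?_⟩ <;> omega
  · right; right; right; right; right; right; right; right
    refine ⟨?_, ?_, ?_, ?_⟩ <;> omega
  · left
    refine ⟨?_, ?_, ?_, ?_, ?_, ?_, ?_, ?_⟩ <;> omega
  · rcases k0 with k0 | k0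
    · right; left
      refine ⟨?_, ?_, ?_, ?_⟩ <;> omega
    · left
      refine ⟨?_, ?_, ?_, ?_, ?_, ?_, ?_, ?_⟩ <;> omega
  · rcases h0 with h0 | h0
    · left
      refine ⟨?_, ?_, ?_, ?_, ?_, ?_, ?_, ?_⟩ <;> omega
    · right; left
      refine ⟨?_, ?_, ?_, ?_⟩ <;> omega
  · rcases h0 with h0 | h0
    · left
      refine ⟨?_, ?_, ?_, ?_, ?_, ?_, ?_, ?_⟩ <;> omega
    · right; left
      refine ⟨?_, ?_, ?_, ?_⟩ <;> omega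
  · rcases h0 with h0 | h0
    · left
      refine ⟨?_, ?_, ?_, ?_, ?_, ?_, ?_, ?_⟩ <;> omega
    · right; left
      refine ⟨?_, ?_, ?_, ?_⟩ <;> omega
  · rcases h0 with h0 | h0
    · left
      refine ⟨?_, ?_, ?_, ?_, ?_, ?_, ?_, ?_⟩ <;> omega
    · right; left
      refine ⟨?_, ?_, ?_, ?_⟩ <;> omega
  · rcases le_or_gt p q with hpq | hpq
    · left
      refine ⟨?_, ?_, ?_, ?_, ?_, ?_, ?_, ?_⟩ <;> omega
    · right; left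
      refine ⟨?_, ?_, ?_, ?_⟩ <;> omega

end Run7.h915.KF
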