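import Pool.Agent.Run7.h523.KF.Iface

/-!
# KLS for `± x_i ± x_j ≤ 0` (helper523): piece DIH6 (helper915), and the orbit sums for DIH8
-/

set_option autoImplicit false

namespace Run7.h915.KF

open Run7.h523.KF
open Classical

theorem alt_mem {α : Type} {X : Finset α} {a b : α → α} (ha : ∀ x ∈ X, a x ∈ X)
    (hb : ∀ x ∈ X, b x ∈ X) (i : ℕ) : ∀ x ∈ X, alt a b i x ∈ X := by
  induction i with
  | zero => intro x hx; exact hx
  | succ i ih =>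
    intro x hx
    unfold alt
    split_ifs
    · exact ha _ (ih x hx)
    · exact hb _ (ih x hx)

theorem sum_inv {α : Type} {X : Finset α} {a : α → α} (ha : ∀ x ∈ X, a x ∈ X)
    (ha2 : ∀ x ∈ X, a (a x) = x) (G : α → ℝ) : ∑ x ∈ X, G (a x) = ∑ x ∈ X, G x :=
  Finset.sum_nbij' a a ha ha ha2 ha2 (fun _ _ => rfl)

theorem sum_alt {α : Type} {X : Finset α} {a b : α → α} (ha : ∀ x ∈ X, a x ∈ X)
    (hb : ∀ x ∈ X, b x ∈ X) (ha2 : ∀ x ∈ X, a (a x) = x) (hb2 : ∀ x ∈ X, b (b x) = x) (i : ℕ) :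
    ∀ G : α → ℝ, ∑ x ∈ X, G (alt a b i x) = ∑ x ∈ X, G x := by
  induction i with
  | zero => intro G; rfl
  | succ i ih =>
    intro G
    by_cases h : i % 2 = 0
    · have h1 : ∀ x, alt a b (i + 1) x = a (alt a b i x) := fun x => by
        show (if i % 2 = 0 then a (alt a b i x) else b (alt a b i x)) = _
        rw [if_pos h]
      simp only [h1]
      rw [ih (fun x => G (a x)), sum_inv ha ha2]
    · have h1 : ∀ x, alt a b (i + 1) x = b (alt a b i x) := fun x => by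
        show (if i % 2 = 0 then a (alt a b i x) else b (alt a b i x)) = _
        rw [if_neg h]
      simp only [h1]
      rw [ih (fun x => G (b x)), sum_inv hb hb2]

/-- a function on `X` with nonnegative sums over the orbits has a nonnegative sum -/
theorem orb_nonneg {α : Type} {X : Finset α} {a b : α → α} (ha : ∀ x ∈ X, a x ∈ X)
    (hb : ∀ x ∈ X, b x ∈ X) (ha2 : ∀ x ∈ X, a (a x) = x) (hb2 : ∀ x ∈ X, b (b x) = x) (m : ℕ)
    (hm : 0 < m) (H : α → ℝ) (h : ∀ x ∈ X, 0 ≤ ∑ i ∈ Finset.range m, H (alt a b i x)) :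
    0 ≤ ∑ x ∈ X, H x := by
  have h1 : ∑ x ∈ X, ∑ i ∈ Finset.range m, H (alt a b i x) = m * ∑ x ∈ X, H x := by
    rw [Finset.sum_comm]
    rw [Finset.sum_congr rfl fun i _ => sum_alt ha hb ha2 hb2 i H]
    rw [Finset.sum_const, Finset.card_range, nsmul_eq_mul]
  have h2 : 0 ≤ (m : ℝ) * ∑ x ∈ X, H x := by
    rw [← h1]
    exact Finset.sum_nonneg h
  have h3 : (0 : ℝ) < m := by exact_mod_cast hm
  exact nonneg_of_mul_nonneg_right h2 h3

/-- from the orbits to the inequality -/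
theorem reduce {α : Type} {X O : Finset α} {a b : α → α} (f : α → ℝ) (hO : O ⊆ X)
    (ha : ∀ x ∈ X, a x ∈ X)
    (hb : ∀ x ∈ X, b x ∈ X) (ha2 : ∀ x ∈ X, a (a x) = x) (hb2 : ∀ x ∈ X, b (b x) = x) (m : ℕ)
    (hm : 0 < m) (κ t τ : ℝ)
    (h : ∀ x ∈ X, 0 ≤ ∑ i ∈ Finset.range m,
      (κ * (t * (if alt a b i x ∈ O ∧ a (alt a b i x) ∈ O then f (alt a b i x) - f (a (alt a b i x)) else 0) ^ 2 +
        τ * (if alt a b i x ∈ O ∧ b (alt a b i x) ∈ O then f (alt a b i x) - f (b (alt a b i x)) else 0) ^ 2) +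
      (if alt a b i x ∈ O ∧ a (alt a b i x) ∈ O then f (alt a b i x) - f (a (alt a b i x)) else 0) *
      (if alt a b i x ∈ O ∧ b (alt a b i x) ∈ O then f (alt a b i x) - f (b (alt a b i x)) else 0))) :
    -∑ x ∈ O, (if x ∈ O ∧ a x ∈ O then f x - f (a x) else 0) *
        (if x ∈ O ∧ b x ∈ O then f x - f (b x) else 0) ≤
      κ * (t * ∑ x ∈ O, (if x ∈ O ∧ a x ∈ O then f x - f (a x) else 0) ^ 2 +
        τ * ∑ x ∈ O, (if x ∈ O ∧ b x ∈ O then f x - f (b x) else 0) ^ 2) := by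
  obtain ⟨A, hA⟩ : ∃ A : α → ℝ, A = fun x => if x ∈ O ∧ a x ∈ O then f x - f (a x) else 0 := ⟨_, rfl⟩
  obtain ⟨B, hB⟩ : ∃ B : α → ℝ, B = fun x => if x ∈ O ∧ b x ∈ O then f x - f (b x) else 0 := ⟨_, rfl⟩
  have hAO : ∀ x, x ∉ O → A x = 0 := fun x hx => by
    rw [hA]
    exact if_neg fun h => hx h.1
  have hBO : ∀ x, x ∉ O → B x = 0 := fun x hx => by
    rw [hB]
    exact if_neg fun h => hx h.1
  have hA' : ∀ x, (if x ∈ O ∧ a x ∈ O then f x - f (a x) else 0) = A x := fun x => by rw [hA]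
  have hB' : ∀ x, (if x ∈ O ∧ b x ∈ O then f x - f (b x) else 0) = B x := fun x => by rw [hB]
  simp only [hA', hB'] at h ⊢
  have h1 := orb_nonneg ha hb ha2 hb2 m hm
    (fun x => κ * (t * A x ^ 2 + τ * B x ^ 2) + A x * B x) h
  have h2 : ∑ x ∈ X, (κ * (t * A x ^ 2 + τ * B x ^ 2) + A x * B x) =
      ∑ x ∈ O, (κ * (t * A x ^ 2 + τ * B x ^ 2) + A x * B x) := by
    symm
    apply Finset.sum_subset hO
    intro x _ hx
    rw [hAO x hx, hBO x hx]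
    ring
  rw [h2, Finset.sum_add_distrib, ← Finset.mul_sum, Finset.sum_add_distrib, ← Finset.mul_sum,
    ← Finset.mul_sum] at h1
  linarith

/-- the values on an orbit: antisymmetry, vanishing outside of `O`, the sum over a full orbit -/
theorem orbit_rel {α : Type} {X O : Finset α} {a b : α → α} (f : α → ℝ)
    (ha : ∀ x ∈ X, a x ∈ X) (hb : ∀ x ∈ X, b x ∈ X) (ha2 : ∀ x ∈ X, a (a x) = x)
    (hb2 : ∀ x ∈ X, b (b x) = x) (A B : α → ℝ)
    (hA : A = fun x => if x ∈ O ∧ a x ∈ O then f x - f (a x) else 0)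
    (hB : B = fun x => if x ∈ O ∧ b x ∈ O then f x - f (b x) else 0) (x : α) (hx : x ∈ X) (i : ℕ) :
    (i % 2 = 0 → A (alt a b (i + 1) x) = -A (alt a b i x)) ∧
    (i % 2 = 1 → B (alt a b (i + 1) x) = -B (alt a b i x)) ∧
    (alt a b i x ∉ O → A (alt a b i x) = 0 ∧ B (alt a b i x) = 0) ∧
    (alt a b i x ∈ O → alt a b (i + 1) x ∈ O → (i % 2 = 0 → A (alt a b i x) =
      f (alt a b i x) - f (alt a b (i + 1) x)) ∧
      (i % 2 = 1 → B (alt a b i x) = f (alt a b i x) - f (alt a b (i + 1) x))) := by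
  have hm := alt_mem ha hb i x hx
  have e1 : i % 2 = 0 → alt a b (i + 1) x = a (alt a b i x) := fun h => by
    show (if i % 2 = 0 then a (alt a b i x) else b (alt a b i x)) = _
    rw [if_pos h]
  have e2 : i % 2 = 1 → alt a b (i + 1) x = b (alt a b i x) := fun h => by
    show (if i % 2 = 0 then a (alt a b i x) else b (alt a b i x)) = _
    rw [if_neg (by omega)]
  refine ⟨fun h => ?_, fun h => ?_, fun h => ⟨?_, ?_⟩, fun h h' => ⟨fun h1 => ?_, fun h1 => ?_⟩⟩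
  · rw [e1 h, hA]
    simp only [ha2 _ hm]
    by_cases h3 : alt a b i x ∈ O ∧ a (alt a b i x) ∈ O
    · rw [if_pos h3, if_pos ⟨h3.2, h3.1⟩]
      ring
    · rw [if_neg h3, if_neg fun h4 => h3 ⟨h4.2, h4.1⟩]
      ring
  · rw [e2 h, hB]
    simp only [hb2 _ hm]
    by_cases h3 : alt a b i x ∈ O ∧ b (alt a b i x) ∈ O
    · rw [if_pos h3, if_pos ⟨h3.2, h3.1⟩]
      ring
    · rw [if_neg h3, if_neg fun h4 => h3 ⟨h4.2, h4.1⟩]
      ring
  · rw [hA]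
    exact if_neg fun h1 => h h1.1
  · rw [hB]
    exact if_neg fun h1 => h h1.1
  · rw [e1 h1] at h' ⊢
    rw [hA]
    exact if_pos ⟨h, h'⟩
  · rw [e2 h1] at h' ⊢
    rw [hB]
    exact if_pos ⟨h, h'⟩

theorem hex_core (t τ : ℝ) (ht : 0 < t) (hτ : 0 < τ) (h1 : t * τ = 1)
    (A0 A1 A2 A3 A4 A5 B0 B1 B2 B3 B4 B5 : ℝ) (hA1 : A1 = -A0) (hA3 : A3 = -A2) (hA5 : A5 = -A4)
    (hB2 : B2 = -B1) (hB4 : B4 = -B3) (hB0 : B0 = -B5)
    (h : A0 + B1 + A2 + B3 + A4 + B5 = 0 ∨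
      (A0 = 0 ∧ A2 = 0 ∧ A4 = 0) ∨ (B1 = 0 ∧ B3 = 0 ∧ B5 = 0) ∨
      (A2 = 0 ∧ A4 = 0 ∧ B3 = 0 ∧ B5 = 0) ∨ (A4 = 0 ∧ A0 = 0 ∧ B3 = 0 ∧ B5 = 0) ∨
      (A4 = 0 ∧ A0 = 0 ∧ B5 = 0 ∧ B1 = 0) ∨ (A0 = 0 ∧ A2 = 0 ∧ B5 = 0 ∧ B1 = 0) ∨
      (A0 = 0 ∧ A2 = 0 ∧ B1 = 0 ∧ B3 = 0) ∨ (A2 = 0 ∧ A4 = 0 ∧ B1 = 0 ∧ B3 = 0)) :
    0 ≤ (1 / 4 * (t * A0 ^ 2 + τ * B0 ^ 2) + A0 * B0) + (1 / 4 * (t * A1 ^ 2 + τ * B1 ^ 2) + A1 * B1) +
      (1 / 4 * (t * A2 ^ 2 + τ * B2 ^ 2) + A2 * B2) + (1 / 4 * (t * A3 ^ 2 + τ * B3 ^ 2) + A3 * B3) +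
      (1 / 4 * (t * A4 ^ 2 + τ * B4 ^ 2) + A4 * B4) + (1 / 4 * (t * A5 ^ 2 + τ * B5 ^ 2) + A5 * B5) := by
  subst hA1 hA3 hA5 hB2 hB4 hB0
  have key : ∀ x y : ℝ, 0 ≤ t * x ^ 2 + 2 * x * y + τ * y ^ 2 := by
    intro x y
    have h2 : t * x ^ 2 + 2 * x * y + τ * y ^ 2 = t * (x + τ * y) ^ 2 := by
      linear_combination (-2 * x * y - τ * y ^ 2) * h1
    rw [h2]
    positivity
  have key' : ∀ x y : ℝ, 0 ≤ t * x ^ 2 - 2 * x * y + τ * y ^ 2 := by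
    intro x y
    have := key x (-y)
    nlinarith [this]
  rcases h with h | ⟨h2, h3, h4⟩ | ⟨h2, h3, h4⟩ | ⟨h2, h3, h4, h5⟩ | ⟨h2, h3, h4, h5⟩ |
    ⟨h2, h3, h4, h5⟩ | ⟨h2, h3, h4, h5⟩ | ⟨h2, h3, h4, h5⟩ | ⟨h2, h3, h4, h5⟩
  · have h2 : (1 / 4 * (t * A0 ^ 2 + τ * (-B5) ^ 2) + A0 * -B5) +
        (1 / 4 * (t * (-A0) ^ 2 + τ * B1 ^ 2) + -A0 * B1) +
        (1 / 4 * (t * A2 ^ 2 + τ * (-B1) ^ 2) + A2 * -B1) +
        (1 / 4 * (t * (-A2) ^ 2 + τ * B3 ^ 2) + -A2 * B3) +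
        (1 / 4 * (t * A4 ^ 2 + τ * (-B3) ^ 2) + A4 * -B3) +
        (1 / 4 * (t * (-A4) ^ 2 + τ * B5 ^ 2) + -A4 * B5) =
        (A0 + A2 + A4) ^ 2 + 1 / 2 * (t * A0 ^ 2 + 2 * A0 * B3 + τ * B3 ^ 2) +
        1 / 2 * (t * A2 ^ 2 + 2 * A2 * B5 + τ * B5 ^ 2) +
        1 / 2 * (t * A4 ^ 2 + 2 * A4 * B1 + τ * B1 ^ 2) := by
      linear_combination (-(A0 + A2 + A4)) * h
    rw [h2]
    have h3 := key A0 B3
    have h4 := key A2 B5
    have h5 := key A4 B1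
    positivity
  · subst h2 h3 h4
    have : (0 : ℝ) ≤ τ * B1 ^ 2 + τ * B3 ^ 2 + τ * B5 ^ 2 := by positivity
    nlinarith [this]
  · subst h2 h3 h4
    have : (0 : ℝ) ≤ t * A0 ^ 2 + t * A2 ^ 2 + t * A4 ^ 2 := by positivity
    nlinarith [this]
  · subst h2 h3 h4 h5
    nlinarith [key' A0 B1]
  · subst h2 h3 h4 h5
    nlinarith [key' A2 B1]
  · subst h2 h3 h4 h5
    nlinarith [key' A2 B3]
  · subst h2 h3 h4 h5
    nlinarith [key' A4 B3]
  · subst h2 h3 h4 h5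
    nlinarith [key' A4 B5]
  · subst h2 h3 h4 h5
    nlinarith [key' A0 B5]

theorem t_DIH6 : S_DIH6 := by
  intro α X O a b f t ht hO ha hb ha2 hb2 hcyc hpat
  refine reduce f hO ha hb ha2 hb2 6 (by norm_num) (1 / 4) t t⁻¹ ?_
  intro x hx
  obtain ⟨A, hA⟩ : ∃ A : α → ℝ, A = fun x => if x ∈ O ∧ a x ∈ O then f x - f (a x) else 0 := ⟨_, rfl⟩
  obtain ⟨B, hB⟩ : ∃ B : α → ℝ, B = fun x => if x ∈ O ∧ b x ∈ O then f x - f (b x) else 0 := ⟨_, rfl⟩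
  have hA' : ∀ x, (if x ∈ O ∧ a x ∈ O then f x - f (a x) else 0) = A x := fun x => by rw [hA]
  have hB' : ∀ x, (if x ∈ O ∧ b x ∈ O then f x - f (b x) else 0) = B x := fun x => by rw [hB]
  simp only [hA', hB']
  have R := fun i => orbit_rel f ha hb ha2 hb2 A B hA hB x hx i
  have c6 : alt a b 6 x = x := hcyc x hx
  have c0 : alt a b 0 x = x := rfl
  have r0 := (R 0).1 rfl
  have r1 := (R 1).2.1 rfl
  have r2 := (R 2).1 rfl
  have r3 := (R 3).2.1 rfl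
  have r4 := (R 4).1 rfl
  have r5 := (R 5).2.1 rfl
  norm_num at r0 r1 r2 r3 r4 r5
  have c60 : alt a b 6 x = alt a b 0 x := c6.trans c0.symm
  rw [c60] at r5
  have z := fun i => (R i).2.2.1
  simp only [Finset.sum_range_succ, Finset.sum_range_zero, zero_add]
  refine hex_core t t⁻¹ ht (inv_pos.2 ht) (mul_inv_cancel₀ ht.ne') _ _ _ _ _ _ _ _ _ _ _ _
    r0 r2 r4 r1 r3 r5 ?_
  rcases hpat x hx with h | ⟨i₀, hi₀, h⟩
  · left
    have g0 := ((R 0).2.2.2 (h 0 (by norm_num)) (h 1 (by norm_num))).1 rfl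
    have g1 := ((R 1).2.2.2 (h 1 (by norm_num)) (h 2 (by norm_num))).2 rfl
    have g2 := ((R 2).2.2.2 (h 2 (by norm_num)) (h 3 (by norm_num))).1 rfl
    have g3 := ((R 3).2.2.2 (h 3 (by norm_num)) (h 4 (by norm_num))).2 rfl
    have g4 := ((R 4).2.2.2 (h 4 (by norm_num)) (h 5 (by norm_num))).1 rfl
    have h6 : alt a b (5 + 1) x ∈ O := by
      show alt a b 6 x ∈ O
      rw [c6]
      exact h 0 (by norm_num)
    have g5 := ((R 5).2.2.2 (h 5 (by norm_num)) h6).2 rfl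
    norm_num at g0 g1 g2 g3 g4 g5
    rw [c60] at g5
    rw [g0, g1, g2, g3, g4, g5]
    ring
  · right
    have hn : ∀ i < 6, ¬ (i = i₀ ∨ i = (i₀ + 1) % 6 ∨ i = (i₀ + 2) % 6) →
        A (alt a b i x) = 0 ∧ B (alt a b i x) = 0 := fun i hi h1 => z i fun h2 => h1 (h i hi h2)
    interval_cases i₀
    · -- O within 0, 1, 2
      have k3 := hn 3 (by norm_num) (by norm_num)
      have k4 := hn 4 (by norm_num) (by norm_num)
      have k5 := hn 5 (by norm_num) (by norm_num)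
      have k2 : A (alt a b 2 x) = 0 := by linarith [r2, k3.1]
      exact Or.inr (Or.inr (Or.inl ⟨k2, k4.1, k3.2, k5.2⟩))
    · -- 1, 2, 3
      have k4 := hn 4 (by norm_num) (by norm_num)
      have k5 := hn 5 (by norm_num) (by norm_num)
      have k0 := hn 0 (by norm_num) (by norm_num)
      have k3 : B (alt a b 3 x) = 0 := by linarith [r3, k4.2]
      exact Or.inr (Or.inr (Or.inr (Or.inl ⟨k4.1, k0.1, k3, k5.2⟩)))
    · -- 2, 3, 4
      have k5 := hn 5 (by norm_num) (by norm_num)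
      have k0 := hn 0 (by norm_num) (by norm_num)
      have k1 := hn 1 (by norm_num) (by norm_num)
      have k4 : A (alt a b 4 x) = 0 := by linarith [r4, k5.1]
      exact Or.inr (Or.inr (Or.inr (Or.inr (Or.inl ⟨k4, k0.1, k5.2, k1.2⟩))))
    · -- 3, 4, 5
      have k0 := hn 0 (by norm_num) (by norm_num)
      have k1 := hn 1 (by norm_num) (by norm_num)
      have k2 := hn 2 (by norm_num) (by norm_num)
      have k5 : B (alt a b 5 x) = 0 := by linarith [r5, k0.2]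
      exact Or.inr (Or.inr (Or.inr (Or.inr (Or.inr (Or.inl ⟨k0.1, k2.1, k5, k1.2⟩)))))
    · -- 4, 5, 0
      have k1 := hn 1 (by norm_num) (by norm_num)
      have k2 := hn 2 (by norm_num) (by norm_num)
      have k3 := hn 3 (by norm_num) (by norm_num)
      have k0 : A (alt a b 0 x) = 0 := by linarith [r0, k1.1]
      exact Or.inr (Or.inr (Or.inr (Or.inr (Or.inr (Or.inr (Or.inl ⟨k0, k2.1, k1.2, k3.2⟩))))))
    · -- 5, 0, 1
      have k2 := hn 2 (by norm_num) (by norm_num)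
      have k3 := hn 3 (by norm_num) (by norm_num)
      have k4 := hn 4 (by norm_num) (by norm_num)
      have k1 : B (alt a b 1 x) = 0 := by linarith [r1, k2.2]
      exact Or.inr (Or.inr (Or.inr (Or.inr (Or.inr (Or.inr (Or.inr ⟨k2.1, k4.1, k1, k3.2⟩))))))

end Run7.h915.KF
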